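import Pool.Agent.Lib.MP_092512_nt.KMain

/-!
# A positive proportion of all shapes of prime `k`-tuples inside a window of length `A log x`
# satisfy the Hardy-Littlewood lower bound

A shape is a `k`-element set `D` of integers with smallest element `0`; for `k = 4` these are the
shapes `{0, a, b, c}` of prime quadruples `p, p + a, p + b, p + c`, in particular the two shapes
`{0, 2, 6, 8}` and `{0, 4, 6, 10}` of the problem.  For `H ≥ A log x` a positive proportion of the
shapes `D ⊆ {0, ..., H - 1}` satisfy the Hardy-Littlewood lower bound for the number of `p ≤ x`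
with all of `p + d`, `d ∈ D`, prime, with the right constant up to `ε`.
-/

open Finset Filter Topology

namespace Pool.Agent.Results.MP_092512_nt.AllShapesPositiveProportion

/-- The number of `p ≤ x` such that `p + d` is prime for every `d ∈ D`. -/
def tupleCount (x : ℕ) (D : Finset ℕ) : ℕ :=
  ((Icc 1 x).filter (fun p => ∀ d ∈ D, (p + d).Prime)).card

theorem result :
    ∃ S : Finset ℕ → ℝ,
      (∀ D : Finset ℕ, Tendsto (fun z : ℕ => ∏ p ∈ Nat.primesBelow z,
          (1 - ((D.image (fun d => d % p)).card : ℝ) / p) / (1 - 1 / (p : ℝ)) ^ D.card)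
        atTop (𝓝 (S D))) ∧
      ∀ k : ℕ, 1 ≤ k → ∀ ε : ℝ, 0 < ε → ∃ A c : ℝ, 0 < A ∧ 0 < c ∧ ∃ x₀ : ℕ,
        ∀ x : ℕ, x₀ ≤ x → ∀ H : ℕ, A * Real.log x ≤ H → (H : ℝ) ≤ c * x →
          c * (H : ℝ) ^ (k - 1) ≤ (((powersetCard k (range H)).filter (fun D => 0 ∈ D ∧
            ((1 - ε) * S D + c) * ((Nat.primeCounting x : ℝ) ^ k / (x : ℝ) ^ (k - 1)) ≤
              tupleCount x D)).card : ℝ) := by
  choose S hS using Pool.Agent.Lib.MP_092512_nt.KSets.exists_lim
  exact ⟨S, hS, fun k hk ε hε =>
    Pool.Agent.Lib.MP_092512_nt.KSets.main_shapes S hS k hk ε hε⟩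

end Pool.Agent.Results.MP_092512_nt.AllShapesPositiveProportion
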