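import Pool.Agent.Lib.MP_092512_nt.DZ.Thm

/-!
# Bounded dilates of every constellation in near-primes with prescribed parity

For every finite set `H`, in particular for the shapes `{0, 2, 6, 8}` and `{0, 4, 6, 10}` of the
problem, every `ε > 0` and every residue class `a` modulo `q` there are `r`, `C` such that for all
large `X` and all positive integers `x_1, ..., x_r ≤ X/C` there is a nonempty subset sum
`k = ∑_{i ∈ S} x_i` with at least `X/(log X)^C` integers `n ≤ X` for which EVERY `n + k h`, `h ∈ H`,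
is of the form `m p` with `p` prime and `m ≤ X^ε`, has all its prime factors larger than
`X^(1/C)`, and has at most `C` prime factors, their number being congruent to `a` modulo `q`.
-/

open Finset

namespace Pool.Agent.Results.MP_092512_nt.BoundedDilates

open Classical in
theorem result : ∀ (H : Finset ℕ) (ε : ℝ), 0 < ε → ∀ q a : ℕ, 1 ≤ q →
    ∃ r C X₀ : ℕ, 1 ≤ r ∧ ∀ X : ℕ, X₀ ≤ X → ∀ x : Fin r → ℕ, (∀ i, 1 ≤ x i ∧ C * x i ≤ X) →
      ∃ S : Finset (Fin r), S.Nonempty ∧ (X : ℝ) / (Real.log X) ^ C ≤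
        (((Icc 1 X).filter fun n => ∀ h ∈ H,
          (∃ m p : ℕ, p.Prime ∧ n + (∑ i ∈ S, x i) * h = m * p ∧ (m : ℝ) ≤ (X : ℝ) ^ ε) ∧
          (∀ l : ℕ, l.Prime → l ∣ n + (∑ i ∈ S, x i) * h → X < l ^ C) ∧
          (n + (∑ i ∈ S, x i) * h).primeFactorsList.length ≤ C ∧
          (n + (∑ i ∈ S, x i) * h).primeFactorsList.length ≡ a [MOD q]).card : ℝ) := by
  intro H ε hε q a hq
  obtain ⟨r, C, X₀, h1, h2⟩ := Pool.Agent.Lib.DZ.thm H ε hε q a hq
  refine ⟨r, C, X₀, h1, fun X hX x hx => ?_⟩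
  obtain ⟨S, hS, h3⟩ := h2 X hX x hx
  refine ⟨S, hS, h3.trans (le_of_eq ?_)⟩
  have h4 : ∀ (A B : Finset ℕ), A = B → (A.card : ℝ) = (B.card : ℝ) := fun A B h => by rw [h]
  refine h4 _ _ ?_
  ext n
  simp only [Finset.mem_filter, Pool.Agent.Lib.DZ.NearPrime]

end Pool.Agent.Results.MP_092512_nt.BoundedDilates
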