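import Pool.Agent.Lib.SW.FW5
import Pool.Agent.Lib.MP_092512_nt.Singular

/-!
# The Hardy-Littlewood lower bound for prime quadruples `{p, p + a, p + b, p + a + b}`:
# almost every `a`, all averages over `b`

Both shapes of the problem, `{0, 2, 6, 8}` and `{0, 4, 6, 10}`, are parallelograms
`{0, a, b, a + b}`.  For almost every even `a ≤ x` and for all `J ≥ A log² x` the
Hardy-Littlewood lower bound, with the right constant up to `ε`, holds on average over `b < J`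
and for a positive proportion of the `b < J`.
-/

open Finset Filter Topology

namespace Pool.Agent.Results.MP_092512_nt.FibrewiseLowerBound

/-- The number of primes `p ≤ x` such that `p + a`, `p + b` and `p + a + b` are also prime. -/
def quadCount (x a b : ℕ) : ℕ :=
  ((Icc 1 x).filter (fun p => p.Prime ∧ (p + a).Prime ∧ (p + b).Prime ∧ (p + a + b).Prime)).card

/-- For this `a`, `x` and `J` the lower bound holds on average over `b < J`, and for at least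
`c J` of the `b < J`. -/
def Good (S : ℕ → ℕ → ℝ) (ε c : ℝ) (x a J : ℕ) : Prop :=
  (1 - ε) * ((Nat.primeCounting x : ℝ) ^ 4 / (x : ℝ) ^ 3) *
      ∑ b ∈ (Ico 1 J).filter (fun b => b ≠ a), ((J : ℝ) - b) * S a b ≤
    ∑ b ∈ (Ico 1 J).filter (fun b => b ≠ a), ((J : ℝ) - b) * quadCount x a b ∧
  c * J ≤ (((Ico 1 J).filter (fun b => b ≠ a ∧
    ((1 - ε) * S a b + c) * ((Nat.primeCounting x : ℝ) ^ 4 / (x : ℝ) ^ 3) ≤
      quadCount x a b)).card : ℝ)

open Classical in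
theorem result :
    ∃ S : ℕ → ℕ → ℝ,
      (∀ a b : ℕ, 0 < a → 0 < b → a ≠ b →
        Tendsto (fun z : ℕ => ∏ p ∈ Nat.primesBelow z,
          (1 - ((({0, a, b, a + b} : Finset ℕ).image (fun h => h % p)).card : ℝ) / p) /
            (1 - 1 / (p : ℝ)) ^ 4) atTop (𝓝 (S a b))) ∧
      ∀ ε : ℝ, 0 < ε → ∃ A c : ℝ, 0 < A ∧ 0 < c ∧ ∃ x₀ : ℕ, ∀ x : ℕ, x₀ ≤ x →
        (((Icc 1 x).filter (fun a => Even a ∧ ¬ ∀ J : ℕ, A * (Real.log x) ^ 2 ≤ J →
          (J : ℝ) ≤ c * x → Good S ε c x a J)).card : ℝ) ≤ ε * x := by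
  have hex : ∀ a b : ℕ, ∃ s : ℝ, 0 < a → 0 < b → a ≠ b →
      (Tendsto (Pool.Agent.Lib.MP_092512_nt.Spart a b) atTop (𝓝 s) ∧ 0 ≤ s) := by
    intro a b
    by_cases h : 0 < a ∧ 0 < b ∧ a ≠ b
    · obtain ⟨s, hs⟩ := Pool.Agent.Lib.MP_092512_nt.exists_lim a b h.1 h.2.1 h.2.2
      exact ⟨s, fun _ _ _ => hs⟩
    · exact ⟨0, fun h1 h2 h3 => absurd ⟨h1, h2, h3⟩ h⟩
  choose S hS using hex
  refine ⟨S, fun a b h1 h2 h3 => (hS a b h1 h2 h3).1, fun ε hε => ?_⟩
  obtain ⟨A, c, hA, hc, x₀, hmain⟩ := Pool.Agent.Lib.SW.fibrewise S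
    (fun a b h1 h2 h3 => (hS a b h1 h2 h3).1) (fun a b h1 h2 h3 => (hS a b h1 h2 h3).2) ε hε
  refine ⟨A, min c 1, hA, lt_min hc one_pos, max x₀ 3, fun x hx => ?_⟩
  have h := hmain x ((le_max_left _ _).trans hx)
  refine le_trans (Nat.cast_le.mpr (Finset.card_le_card ?_)) h
  intro a ha
  rw [Finset.mem_filter] at ha ⊢
  obtain ⟨h1, h2, h3⟩ := ha
  refine ⟨h1, h2, fun h4 => h3 fun J hJ1 hJ2 => ?_⟩
  have hx3 : 3 ≤ x := (le_max_right _ _).trans hx
  have hxr : (3 : ℝ) ≤ x := by exact_mod_cast hx3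
  have hlog : 0 < Real.log x := Real.log_pos (by linarith)
  have hJ0 : (0 : ℝ) < J := lt_of_lt_of_le (by positivity) hJ1
  have hJx : (J : ℝ) ≤ x := by
    have : min c 1 * (x : ℝ) ≤ 1 * x := by
      gcongr
      exact min_le_right _ _
    linarith
  have hJc : (J : ℝ) ≤ c * x := by
    refine hJ2.trans ?_
    gcongr
    exact min_le_left _ _
  have hJm : J ∈ Icc 1 x := by
    rw [Finset.mem_Icc]
    exact ⟨by exact_mod_cast hJ0, by exact_mod_cast hJx⟩
  obtain ⟨h5, h6⟩ := h4 J hJm hJ1 hJc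
  refine ⟨h5, ?_⟩
  refine le_trans ?_ (h6.trans ?_)
  · gcongr
    exact min_le_left _ _
  · refine Nat.cast_le.mpr (Finset.card_le_card ?_)
    intro b hb
    rw [Finset.mem_filter] at hb ⊢
    obtain ⟨hb1, hb2, hb3⟩ := hb
    refine ⟨hb1, hb2, le_trans ?_ hb3⟩
    have : 0 ≤ (Nat.primeCounting x : ℝ) ^ 4 / (x : ℝ) ^ 3 := by positivity
    refine mul_le_mul_of_nonneg_right ?_ this
    have := min_le_left c 1
    linarith

end Pool.Agent.Results.MP_092512_nt.FibrewiseLowerBound
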