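import Mathlib
import Pool.Agent.Lib.MP_092512_nt.FP.GHom

/-!
# Prime clusters of every shape, up to a bounded dilation and bounded errors

`k = 4`, `m = 1`: every quadruple of positions becomes the shape of many prime quadruples after a dilation by one
of the sums of `r` given numbers and bounded changes of the positions.
-/

set_option autoImplicit false

open Finset

namespace Pool.Agent.Results.MP_092512_nt.HomotheticClusters

theorem result (k : ℕ) (hk : 1 ≤ k) : ∃ r : ℕ, ∀ m : ℕ, ∃ M : ℕ, ∀ B : ℕ, ∃ C X₀ : ℕ,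
    ∀ X : ℕ, X₀ ≤ X → ∀ h : Fin k → ℕ, (∀ j, (h j : ℝ) ≤ (Real.log X) ^ B) →
    ∀ x : Fin r → ℕ, (∀ i, 1 ≤ x i ∧ (x i : ℝ) ≤ (Real.log X) ^ B) →
    ∃ I : Finset (Fin r), I.Nonempty ∧ ∃ D : Fin k → Finset ℕ,
      (∀ j, (D j).card = m ∧ ∀ d ∈ D j, d ≤ M) ∧
      (X : ℝ) / (Real.log X) ^ C ≤
        (((Ioc X (2 * X)).filter
          (fun n => ∀ j, ∀ d ∈ D j, (n + (∑ i ∈ I, x i) * h j + d).Prime)).card : ℝ) := by
  obtain ⟨r, hr⟩ := Pool.Agent.Lib.MP_092512_nt.FP.ghom k hk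
  refine ⟨r, fun m => ?_⟩
  obtain ⟨M, hM⟩ := hr m
  refine ⟨M, fun B => ?_⟩
  obtain ⟨C, X₀, hX⟩ := hM B
  refine ⟨C, X₀, fun X hX0 h hh x hx => ?_⟩
  obtain ⟨I, hI, D, hD, hcount⟩ := hX X hX0 h hh x (fun i => (hx i).2)
  refine ⟨I, hI, D, hD, hcount.trans ?_⟩
  simp only [← add_assoc]
  exact le_rfl

end Pool.Agent.Results.MP_092512_nt.HomotheticClusters
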