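import Pool.Agent.Lib.VK.TFin
import Pool.Agent.Lib.VK.TPos

/-!
# The Hardy-Littlewood formula for almost all shapes, members prime or products of exactly two primes

`n` is prime and every `n + h_i` is, as prescribed, a prime or a product `p r` of exactly two primes with `P < p ≤ 2P`,
`P = ⌊(log 32X)^c⌋`. For almost all shapes `(h_1, ..., h_m)`, where `h_i` runs over `[1, X]` for the prime members and over ANY window
`(b_i, b_i + H]`, `(log X)^C ≤ H ≤ √X`, `b_i ≤ √X`, for the others, the number of such `n` in `(X, 2X]` is asymptotic to the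
Hardy-Littlewood prediction, with the true constant.
-/

set_option autoImplicit false

open Finset Filter Topology

namespace Pool.Agent.Results.MP_092512_nt.MixedTupleFormula

/-- the number of classes modulo `p` met by `0, h_1, ..., h_m` -/
def nu {m : ℕ} (h : Fin m → ℕ) (p : ℕ) : ℕ := (insert 0 (univ.image fun i => h i % p)).card

/-- the product over the primes `p ≤ z` of the factors `(1 - ν(p)/p) / (1 - 1/p)^(m+1)` -/
noncomputable def partialSing {m : ℕ} (h : Fin m → ℕ) (z : ℕ) : ℝ :=
  ∏ p ∈ (Icc 1 z).filter Nat.Prime, (1 - (nu h p : ℝ) / p) / (1 - 1 / (p : ℝ)) ^ (m + 1)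

/-- the Hardy-Littlewood constant of the shape `0, h_1, ..., h_m`: the limit of `partialSing h z` for `z → ∞` -/
noncomputable def sing {m : ℕ} (h : Fin m → ℕ) : ℝ := limUnder atTop (partialSing h)

/-- `n = p r` with primes `P < p ≤ 2P` and `r` -/
def E (P n : ℕ) : Prop := ∃ p r : ℕ, p.Prime ∧ r.Prime ∧ P < p ∧ p ≤ 2 * P ∧ n = p * r

/-- the sum of `1/p` over the primes `P < p ≤ 2P` -/
noncomputable def D (P : ℕ) : ℝ := ∑ p ∈ (Ioc P (2 * P)).filter Nat.Prime, 1 / (p : ℝ)

open Classical in
/-- the number of the primes `n` in `(X, 2X]` such that every `n + h_i` is prime (`τ i = true`) or in `E P` (`τ i = false`) -/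
noncomputable def count {m : ℕ} (P X : ℕ) (τ : Fin m → Bool) (h : Fin m → ℕ) : ℕ :=
  ((Ioc X (2 * X)).filter fun n => n.Prime ∧ ∀ i, (τ i = true → (n + h i).Prime) ∧ (τ i = false → E P (n + h i))).card

/-- the prediction without the constant: `D^e X/(log X)^(m+1)`, `e` the number of members in `E P` -/
noncomputable def pred {m : ℕ} (P X : ℕ) (τ : Fin m → Bool) : ℝ :=
  D P ^ (univ.filter fun i => τ i = false).card * X / (Real.log X) ^ (m + 1)

/-- the box of the shapes: `1 ≤ h_i ≤ X` for the prime members, `b_i < h_i ≤ b_i + H` for the others -/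
def shapes {m : ℕ} (X H : ℕ) (τ : Fin m → Bool) (b : Fin m → ℕ) : Finset (Fin m → ℕ) :=
  Fintype.piFinset fun i => if τ i = true then Icc 1 X else Ioc (b i) (b i + H)

open Classical in
theorem result :
    (∀ m : ℕ, ∃ s : ℝ, 0 < s ∧ ∀ h : Fin m → ℕ, Function.Injective h → (∀ i, 1 ≤ h i) →
      Tendsto (partialSing h) atTop (𝓝 (sing h)) ∧
        (((∀ p : ℕ, p.Prime → nu h p < p) ∧ s ≤ sing h) ∨ ((∃ p : ℕ, p.Prime ∧ nu h p = p) ∧ sing h = 0))) ∧
    ∀ (m : ℕ) (τ : Fin m → Bool) (A : ℕ), ∃ c₀ : ℕ, ∀ c : ℕ, c₀ ≤ c → ∃ C : ℕ, ∀ ε : ℝ, 0 < ε → ∃ X₀ : ℝ,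
      ∀ X P H : ℕ, ∀ b : Fin m → ℕ, X₀ ≤ X → P = ⌊(Real.log (32 * X : ℕ)) ^ c⌋₊ →
        (Real.log X) ^ C ≤ H → (H : ℝ) ≤ Real.sqrt X → (∀ i, (b i : ℝ) ≤ Real.sqrt X) →
          (((shapes X H τ b).filter fun h => ¬ (Function.Injective h ∧
            |(count P X τ h : ℝ) - sing h * pred P X τ| ≤ ε * pred P X τ)).card : ℝ) ≤
              (shapes X H τ b).card / (Real.log X) ^ A := by
  refine ⟨fun m => ?_, fun m τ A => ?_⟩
  · obtain ⟨s, hs, hpos⟩ := Pool.Agent.Lib.VKT.pos m
    obtain ⟨C, D', hC, htail⟩ := Pool.Agent.Lib.VKT.tail m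
    refine ⟨s, hs, fun h hinj h1 => ⟨?_, ?_⟩⟩
    · obtain ⟨N, hN⟩ : ∃ N : ℕ, 2 ≤ N ∧ ∀ i, h i ≤ N := by
        refine ⟨2 + ∑ i, h i, by omega, fun i => ?_⟩
        have : h i ≤ ∑ i, h i := single_le_sum (fun j _ => Nat.zero_le (h j)) (mem_univ i)
        omega
      obtain ⟨z, hz⟩ := exists_nat_ge (max 2 (C * Real.log N))
      have hz2 : 2 ≤ z := by
        have : (2 : ℝ) ≤ z := (le_max_left _ _).trans hz
        exact_mod_cast this
      exact (htail z N h hz2 hN.1 hinj (fun i => ⟨h1 i, hN.2 i⟩) ((le_max_right _ _).trans hz)).1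
    · by_cases had : ∀ p : ℕ, p.Prime → nu h p < p
      · exact Or.inl ⟨had, hpos h hinj h1 had⟩
      · push Not at had
        obtain ⟨p, hp, hle⟩ := had
        have hle2 : nu h p ≤ p := by
          unfold nu
          refine (card_le_card (t := range p) ?_).trans (card_range p).le
          intro x hx
          rw [mem_insert, mem_image] at hx
          rw [mem_range]
          rcases hx with hx | ⟨i, -, hx⟩
          · rw [hx]; exact hp.pos
          · rw [← hx]; exact Nat.mod_lt _ hp.pos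
        have he : nu h p = p := le_antisymm hle2 hle
        exact Or.inr ⟨⟨p, hp, he⟩, Pool.Agent.Lib.VKT.zero m h hinj h1 hp he⟩
  · obtain ⟨a1, ha⟩ := Pool.Agent.Lib.VKT.tuples τ A
    refine ⟨a1, fun c hc => ?_⟩
    obtain ⟨C, hCC⟩ := ha c hc
    obtain ⟨x1, hpar⟩ := Pool.Agent.Lib.VKT.par_ok c
    refine ⟨C, fun ε hε => ?_⟩
    obtain ⟨x0, hx0⟩ := hCC ε hε
    refine ⟨max x0 (max x1 (Real.exp (Real.exp 1))), fun X P H b hX hP hH1 hH2 hb => ?_⟩
    have hXx0 : x0 ≤ X := (le_max_left _ _).trans hX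
    have hXx1 : x1 ≤ X := ((le_max_left _ _).trans (le_max_right _ _)).trans hX
    have hXe : Real.exp (Real.exp 1) ≤ X := ((le_max_right _ _).trans (le_max_right _ _)).trans hX
    have hX0 : (0 : ℝ) < X := lt_of_lt_of_le (Real.exp_pos _) hXe
    have hlX : Real.exp 1 ≤ Real.log X := by
      rw [Real.le_log_iff_exp_le hX0]
      exact hXe
    have hlX0 : 0 < Real.log X := lt_of_lt_of_le (Real.exp_pos _) hlX
    have hllX : 1 ≤ Real.log (Real.log X) := by
      rw [Real.le_log_iff_exp_le hlX0]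
      exact hlX
    obtain ⟨-, -, -, -, -, hd, -⟩ := hpar X P (X / (2 * P)) hXx1 hP rfl
    have hD : 0 < D P := by
      have h1 : 0 < 1 / (8 * ((c : ℝ) + 1) * Real.log (Real.log X)) := by positivity
      exact lt_of_lt_of_le h1 hd
    have hpred : 0 < pred P X τ := by
      unfold pred
      positivity
    set b' : Fin m → ℕ := fun i => if τ i = true then 0 else b i with hb'
    have hb2 : ∀ i, (τ i = true → b' i = 0) ∧ (τ i = false → (b' i : ℝ) ≤ Real.sqrt X) := by
      intro i
      refine ⟨fun h => by simp [hb', h], fun h => ?_⟩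
      have : b' i = b i := by simp [hb', h]
      rw [this]
      exact hb i
    have hshape : shapes X H τ b = Pool.Agent.Lib.VKT.box b' (fun i => if τ i = true then X else H) := by
      unfold shapes Pool.Agent.Lib.VKT.box
      congr 1
      funext i
      by_cases h : τ i = true
      · simp only [hb', h, if_true]
        ext x
        simp only [mem_Icc, mem_Ioc]
        omega
      · simp only [hb', h]
        simp
    have hcard : ((shapes X H τ b).card : ℝ) = ∏ i, ((if τ i = true then X else H : ℕ) : ℝ) := by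
      unfold shapes
      rw [Fintype.card_piFinset]
      push_cast
      refine prod_congr rfl fun i _ => ?_
      by_cases h : τ i = true
      · simp [h]
      · simp [h]
    have hmain := hx0 X P hXx0 hP H hH1 hH2 b' hb2
    rw [hcard]
    refine le_trans ?_ hmain
    rw [hshape]
    refine Nat.cast_le.2 (card_le_card fun h hh => ?_)
    rw [mem_filter] at hh ⊢
    refine ⟨hh.1, fun hgood => hh.2 ⟨hgood.1, ?_⟩⟩
    have h1 := hgood.2
    have h2 : (count P X τ h : ℝ) - sing h * pred P X τ =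
        ((count P X τ h : ℝ) * (Real.log X) ^ (m + 1) / (D P ^ (univ.filter fun i => τ i = false).card * X) - sing h) *
          pred P X τ := by
      rw [sub_mul]
      congr 1
      unfold pred
      field_simp
    rw [h2, abs_mul, abs_of_pos hpred]
    exact mul_le_mul_of_nonneg_right h1 hpred.le

end Pool.Agent.Results.MP_092512_nt.MixedTupleFormula
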