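import Pool.Agent.Lib.MP_092512_nt.P3.G4

/-!
# Quadruples of almost primes: the Hardy-Littlewood order of magnitude

For every admissible shape `{h 0, h 1, h 2, h 3}`, in particular for the shapes `{0, 2, 6, 8}` and
`{0, 4, 6, 10}` of the problem, the number of `n ≤ N` such that ALL FOUR numbers `n + h i` are
squarefree with at most three prime factors, all of them larger than `N^(1/251)`, is of the
order of magnitude `S N / (log N)^4` predicted for primes, with absolute constants, where `S`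
is the Hardy-Littlewood constant of the shape.
-/

open Finset Filter Topology

namespace Pool.Agent.Results.MP_092512_nt.P3Quadruples

/-- The number of residue classes modulo `p` which contain one of the shifts `h i`. -/
def nu (h : Fin 4 → ℕ) (p : ℕ) : ℕ := (univ.image (fun i => h i % p)).card

/-- The product over the primes `p ≤ z` of the factors `(1 - ν(p)/p) / (1 - 1/p)^4`. -/
noncomputable def partialSing (h : Fin 4 → ℕ) (z : ℕ) : ℝ :=
  ∏ p ∈ (Icc 1 z).filter Nat.Prime, (1 - (nu h p : ℝ) / p) / (1 - 1 / (p : ℝ)) ^ 4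

open Classical in
/-- The number of `n ≤ N` such that all four numbers `n + h i` are squarefree with at most three
prime factors, all of them larger than `N^(1/251)`. -/
noncomputable def count3 (h : Fin 4 → ℕ) (N : ℕ) : ℕ :=
  ((Icc 1 N).filter (fun n => ∀ i, Squarefree (n + h i) ∧ (n + h i).primeFactors.card ≤ 3 ∧
    ∀ p ∈ (n + h i).primeFactors, (N : ℝ) ^ (1 / 251 : ℝ) < p)).card

theorem result : ∃ c C : ℝ, 0 < c ∧ 0 < C ∧ ∀ h : Fin 4 → ℕ, Function.Injective h →
    (∀ p : ℕ, p.Prime → nu h p < p) →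
    ∃ S : ℝ, 0 < S ∧ Tendsto (partialSing h) atTop (𝓝 S) ∧
      ∃ N₀ : ℕ, ∀ N : ℕ, N₀ ≤ N →
        c * S * (N / (Real.log N) ^ 4) ≤ count3 h N ∧
        count3 h N ≤ C * S * (N / (Real.log N) ^ 4) := by
  obtain ⟨c, C, hc, hC, H⟩ := Pool.Agent.Lib.MP_092512_nt.P3.quadruples_sing
  refine ⟨c, C, hc, hC, fun h hinj hadm => ?_⟩
  obtain ⟨S, hS, hlim, N₀, hN⟩ := H h hinj hadm
  refine ⟨S, hS, hlim, N₀, fun N hN0 => ⟨(hN N hN0).1, le_trans ?_ (hN N hN0).2⟩⟩
  refine Nat.cast_le.2 (card_le_card fun n hn => ?_)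
  rw [mem_filter] at hn ⊢
  exact ⟨hn.1, fun i => (hn.2 i).2.2⟩

end Pool.Agent.Results.MP_092512_nt.P3Quadruples
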