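import Pool.Agent.Lib.MP_092512_nt.Final
import Pool.Agent.Lib.MP_092512_nt.Singular

/-!
# A positive proportion of the quadruple shapes `{0, a, b, a + b}` at logarithmic scale satisfy
# the Hardy-Littlewood lower bound

Both shapes of the problem, `{0, 2, 6, 8}` and `{0, 4, 6, 10}`, are parallelograms
`{0, a, b, a + b}`.  For `H ≥ A log x` and `J ≥ A log² x` a positive proportion of the pairs
`a < H`, `b < J` satisfy the Hardy-Littlewood lower bound for the number of `p ≤ x` with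
`p, p + a, p + b, p + a + b` prime, with the right constant up to `ε`.
-/

open Finset Filter Topology

namespace Pool.Agent.Results.MP_092512_nt.PositiveProportion

/-- The number of primes `p ≤ x` such that `p + a`, `p + b` and `p + a + b` are also prime. -/
def quadCount (x a b : ℕ) : ℕ :=
  ((Icc 1 x).filter (fun p => p.Prime ∧ (p + a).Prime ∧ (p + b).Prime ∧ (p + a + b).Prime)).card

theorem result :
    ∃ S : ℕ → ℕ → ℝ,
      (∀ a b : ℕ, 0 < a → 0 < b → a ≠ b →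
        Tendsto (fun z : ℕ => ∏ p ∈ Nat.primesBelow z,
          (1 - ((({0, a, b, a + b} : Finset ℕ).image (fun h => h % p)).card : ℝ) / p) /
            (1 - 1 / (p : ℝ)) ^ 4) atTop (𝓝 (S a b))) ∧
      ∀ ε : ℝ, 0 < ε → ∃ A c : ℝ, 0 < A ∧ 0 < c ∧ ∃ x₀ : ℕ, ∀ x : ℕ, x₀ ≤ x → ∀ H J : ℕ,
        A * Real.log x ≤ H → A * (Real.log x) ^ 2 ≤ J → H ≤ J → (J : ℝ) ≤ c * x →
        c * (H * J) ≤ (((Ico 1 H ×ˢ Ico 1 J).filter (fun q => q.1 ≠ q.2 ∧
          ((1 - ε) * S q.1 q.2 + c) * ((Nat.primeCounting x : ℝ) ^ 4 / (x : ℝ) ^ 3) ≤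
            quadCount x q.1 q.2)).card : ℝ) := by
  classical
  have hex : ∀ a b : ℕ, ∃ s : ℝ, 0 < a → 0 < b → a ≠ b →
      (Tendsto (Pool.Agent.Lib.MP_092512_nt.Spart a b) atTop (𝓝 s) ∧ 0 ≤ s) := by
    intro a b
    by_cases h : 0 < a ∧ 0 < b ∧ a ≠ b
    · obtain ⟨s, hs⟩ := Pool.Agent.Lib.MP_092512_nt.exists_lim a b h.1 h.2.1 h.2.2
      exact ⟨s, fun _ _ _ => hs⟩
    · exact ⟨0, fun h1 h2 h3 => absurd ⟨h1, h2, h3⟩ h⟩
  choose S hS using hex
  refine ⟨S, fun a b h1 h2 h3 => (hS a b h1 h2 h3).1, fun ε hε => ?_⟩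
  obtain ⟨A, c, hA, hc, x₀, hmain⟩ := Pool.Agent.Lib.MP_092512_nt.main_of
    Pool.Agent.Lib.MP_092512_nt.singular_average_le S
    (fun a b h1 h2 h3 => (hS a b h1 h2 h3).1) (fun a b h1 h2 h3 => (hS a b h1 h2 h3).2) ε hε
  exact ⟨A, c, hA, hc, x₀, fun x hx H J h1 h2 h3 h4 => (hmain x hx H J h1 h2 h3 h4).2⟩

end Pool.Agent.Results.MP_092512_nt.PositiveProportion
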