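import Pool.Agent.Lib.MP_092512_nt.P5.Thm

/-!
# One prime, one `P_4` and two `P_5` in every admissible quadruple

For every admissible shape `{h 0, h 1, h 2, h 3}`, in particular for the shapes `{0, 2, 6, 8}` and
`{0, 4, 6, 10}` of the problem, the number of `n ≤ N` such that `n + h 0` is PRIME, `n + h 1` has at
most four prime factors and `n + h 2`, `n + h 3` have at most five prime factors (all of them
squarefree, with all prime factors larger than `N^(1/251)`) is of the order of magnitude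
`S N / (log N)^4` predicted for primes, with absolute constants, where `S` is the Hardy-Littlewood
constant of the shape.
-/

open Finset Filter Topology

namespace Pool.Agent.Results.MP_092512_nt.PrimeP4P5P5

/-- The number of residue classes modulo `p` which contain one of the shifts `h i`. -/
def nu (h : Fin 4 → ℕ) (p : ℕ) : ℕ := (univ.image (fun i => h i % p)).card

/-- The product over the primes `p ≤ z` of the factors `(1 - ν(p)/p) / (1 - 1/p)^4`. -/
noncomputable def partialSing (h : Fin 4 → ℕ) (z : ℕ) : ℝ :=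
  ∏ p ∈ (Icc 1 z).filter Nat.Prime, (1 - (nu h p : ℝ) / p) / (1 - 1 / (p : ℝ)) ^ 4

open Classical in
/-- The number of `n ≤ N` such that `n + h 0` is prime, `n + h 1` has at most four prime factors,
`n + h 2` and `n + h 3` have at most five prime factors, and all four numbers `n + h i` are
squarefree with all their prime factors larger than `N^(1/251)`. -/
noncomputable def count (h : Fin 4 → ℕ) (N : ℕ) : ℕ :=
  ((Icc 1 N).filter (fun n => (n + h 0).Prime ∧ (n + h 1).primeFactors.card ≤ 4 ∧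
    (n + h 2).primeFactors.card ≤ 5 ∧ (n + h 3).primeFactors.card ≤ 5 ∧
    ∀ i, Squarefree (n + h i) ∧ ∀ p ∈ (n + h i).primeFactors, (N : ℝ) ^ (1 / 251 : ℝ) < p)).card

open Classical in
theorem count_eq (h : Fin 4 → ℕ) (N : ℕ) : ((Icc 1 N).filter (fun n => ∀ i, Squarefree (n + h i) ∧
      Pool.Agent.Lib.MP_092512_nt.P5.QP ![3, 4, 4] i (n + h i) ∧
      ∀ p ∈ (n + h i).primeFactors, (N : ℝ) ^ (1 / 251 : ℝ) < p)).card = count h N := by
  unfold count
  congr 1
  refine Finset.filter_congr fun n _ => ?_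
  unfold Pool.Agent.Lib.MP_092512_nt.P5.QP
  constructor
  · intro hq
    exact ⟨(hq 0).2.1, (hq 1).2.1, (hq 2).2.1, (hq 3).2.1, fun i => ⟨(hq i).1, (hq i).2.2⟩⟩
  · rintro ⟨q0, q1, q2, q3, q⟩ i
    refine ⟨(q i).1, ?_, (q i).2⟩
    fin_cases i
    · exact q0
    · exact q1
    · exact q2
    · exact q3

theorem result : ∃ c C : ℝ, 0 < c ∧ 0 < C ∧ ∀ h : Fin 4 → ℕ, Function.Injective h →
    (∀ p : ℕ, p.Prime → nu h p < p) →
    ∃ S : ℝ, 0 < S ∧ Tendsto (partialSing h) atTop (𝓝 S) ∧
      ∃ N₀ : ℕ, ∀ N : ℕ, N₀ ≤ N →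
        c * S * (N / (Real.log N) ^ 4) ≤ count h N ∧
        count h N ≤ C * S * (N / (Real.log N) ^ 4) := by
  obtain ⟨c, C, hc, hC, H⟩ := Pool.Agent.Lib.MP_092512_nt.P5.theorem1
  refine ⟨c, C, hc, hC, fun h hinj hadm => ?_⟩
  obtain ⟨S, hS, hlim, N₀, hN⟩ := H h hinj hadm
  refine ⟨S, hS, hlim, N₀, fun N hN0 => ?_⟩
  rw [← count_eq h N]
  exact hN N hN0

end Pool.Agent.Results.MP_092512_nt.PrimeP4P5P5
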