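import Pool.Agent.Lib.MP_092512_nt.QC.Top

/-!
# In every dense set of positions there is a subset of a quarter of the positions almost all of
# whose subsets with at most `k` elements are constellations realized by the primes up to `x` at
# least `c S(D) x / (log x) ^ |D|` times

`V` is a set of positions `v ∈ [1, H]`, `H ≥ A log x`, with `b + v` prime to all primes `≤ w`, of
size at least `ε (φ(W)/W) H`, `W` the product of the primes `≤ w`.  Then some `T ⊆ V` with
`|T| ≥ (1/4 - ε)|V|` has the property that for all `j ≤ k` all but at most `ε C(|T|, j)` of the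
`j`-element subsets `D` of `T` satisfy the Hardy-Littlewood lower bound up to a constant.
For `k = 4` these are prime quadruples.
-/

open Finset Filter Topology

namespace Pool.Agent.Results.MP_092512_nt.QuarterCliques

/-- The number of `n ≤ x` such that `n + d` is prime for every `d ∈ D`. -/
def tupleCount (x : ℕ) (D : Finset ℕ) : ℕ :=
  ((Icc 1 x).filter (fun n => ∀ d ∈ D, (n + d).Prime)).card

open Classical in
theorem result :
    ∃ S : Finset ℕ → ℝ,
      (∀ D : Finset ℕ, Tendsto (fun z : ℕ => ∏ p ∈ Nat.primesBelow z,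
          (1 - ((D.image (fun d => d % p)).card : ℝ) / p) / (1 - 1 / (p : ℝ)) ^ D.card)
        atTop (𝓝 (S D))) ∧
      ∀ k : ℕ, 1 ≤ k → ∀ ε : ℝ, 0 < ε → ∃ w₀ : ℕ, ∀ w : ℕ, w₀ ≤ w →
        ∃ A c : ℝ, 0 < A ∧ 0 < c ∧ ∃ x₀ : ℕ, ∀ x : ℕ, x₀ ≤ x → ∀ H : ℕ,
          A * Real.log x ≤ H → (H : ℝ) ≤ c * x → ∀ b : ℕ, ∀ V : Finset ℕ, V ⊆ Icc 1 H →
          (∀ v ∈ V, (b + v).Coprime (primorial w)) →
          ε * ((Nat.totient (primorial w) : ℝ) / (primorial w : ℝ)) * H ≤ V.card →
          ∃ T ⊆ V, (1 / 4 - ε) * (V.card : ℝ) ≤ T.card ∧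
            (∀ D ⊆ T, D.card ≤ k → 0 < S D) ∧
            ∀ j : ℕ, 1 ≤ j → j ≤ k →
              (((powersetCard j T).filter (fun D => (tupleCount x D : ℝ) <
                c * S D * (x / (Real.log x) ^ j))).card : ℝ) ≤
                  ε * (powersetCard j T).card := by
  choose S hS using Pool.Agent.Lib.MP_092512_nt.KSets.exists_lim
  exact ⟨S, hS, fun k hk ε hε => Pool.Agent.Lib.MP_092512_nt.QC.top S hS k hk ε hε⟩

end Pool.Agent.Results.MP_092512_nt.QuarterCliques
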